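import Pool.Agent.Zk72.NS.Shp

/-!
# Stability of the exploration path, sharp version: the lowest path
-/

set_option autoImplicit false

namespace Pool.Agent.Zk11.NS

open H974 Finset H342P H984P H984N Pool.Agent.Zk36.TT Pool.Agent.Zk72.NS

variable {D : Dm} {U B F G : Finset Edg} {e : Edg}

theorem outer_dclu {f : Vtx} (h : f ∈ D.outer) : f ∈ D.dclu F := ⟨f, h, DReach.refl _ _⟩

theorem dclu_step {a : Edg} {f g : Vtx} (hf : f ∈ D.dclu F) (ha : a ∈ D.edges) (hc : a ∉ D.cfg F)
    (h : (dsrc a = f ∧ dtgt a = g) ∨ (dsrc a = g ∧ dtgt a = f)) : g ∈ D.dclu F := by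
  obtain ⟨o, ho, hr⟩ := hf
  exact ⟨o, ho, hr.trans (DAdj.reach ⟨a, ⟨ha, hc⟩, h⟩)⟩

theorem clu_step {a : Edg} {u v : Vtx} (hu : u ∈ D.clu F) (hc : a ∈ D.cfg F)
    (h : (src a = u ∧ tgt a = v) ∨ (src a = v ∧ tgt a = u)) : v ∈ D.clu F := by
  have hu' : Reach (D.cfg F) (0, 0) u := hu
  exact hu'.trans (Adj.reach ⟨a, hc, h⟩)

/-- a set of faces which contains the outer faces and cannot be left -/
theorem dclu_sub {X : Set Vtx} (h0 : D.outer ⊆ X)
    (h : ∀ a ∈ D.edges, a ∉ D.cfg F → ∀ f g, f ∈ X →
      ((dsrc a = f ∧ dtgt a = g) ∨ (dsrc a = g ∧ dtgt a = f)) → g ∈ X) : D.dclu F ⊆ X := by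
  rintro f ⟨o, ho, hr⟩
  have hr' : Relation.ReflTransGen (DAdj (↑D.edges \ D.cfg F : Set Edg)) o f := hr
  induction hr' with
  | refl => exact h0 ho
  | tail hx hs ih =>
    obtain ⟨a, ⟨ha, hc⟩, hor⟩ := hs
    exact h a ha hc _ _ (ih hx) hor

/-- a set of vertices which contains the origin and cannot be left -/
theorem clu_sub {X : Set Vtx} (h0 : ((0, 0) : Vtx) ∈ X)
    (h : ∀ a ∈ D.cfg F, ∀ u v, u ∈ X →
      ((src a = u ∧ tgt a = v) ∨ (src a = v ∧ tgt a = u)) → v ∈ X) : D.clu F ⊆ X := by
  intro f hr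
  have hr' : Relation.ReflTransGen (Adj (D.cfg F)) (0, 0) f := hr
  clear hr
  induction hr' with
  | refl => exact h0
  | tail hx hs ih =>
    obtain ⟨a, ha, hor⟩ := hs
    exact h a ha _ _ ih hor

/-- the state is in a small excursion -/
theorem small_at (hEXC : S_EXC) (hD : D.Ok) {s : ℕ} (hs : 2 ≤ s) (hS : Small D U B s)
    (hU : U ⊆ D.edges) (hB : B ⊆ D.edges) (hG : Btw U B G) (he : e ∈ U) (hw : e ∉ D.wir) {t : ℕ}
    (ht : t ≤ D.len G) (hv : ¬ D.Vis (flip e G) (D.walk G t)) :
    sd (src e) (D.walk G t).1 ≤ s := by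
  have hGe : G ⊆ D.edges := hG.2.trans (Finset.union_subset hB hU)
  obtain ⟨i, l, hit, htl, hi, hl⟩ := hEXC D G e t hD hGe (hU he) hw ht hv
  rcases Nat.lt_or_eq_of_le htl with h | h
  · have h1 := hS G hG e he hw
    by_contra hcon
    exact h1 ⟨i, t, l, hit, h, hi, hl, by omega⟩
  · subst h
    have := at_near hl
    omega

theorem t_CLL (hEXC : S_EXC) (hFST : S_FST) : S_CLL := by
  intro D U B s k t hD hU hB hs hS hkt htl hk hnot
  classical
  set L := B \ U with hL
  set e := ae (D.walk L k) with he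
  have hLe : L ⊆ D.edges := Finset.sdiff_subset.trans hB
  have hBL : Btw U B L := ⟨subset_rfl, Finset.sdiff_subset.trans Finset.subset_union_left⟩
  obtain ⟨heU, hw⟩ := hFST D U B L k hD hU hB hBL (by omega) hk
    (hnot (k + 1) (by omega) (by omega))
  rw [← he] at heU hw
  have heL : e ∉ L := fun h => (Finset.mem_sdiff.1 h).2 heU
  have hec : e ∉ D.cfg L := fun h => h.elim (fun h' => heL h') hw
  -- the faces are not in the lowest dual cluster
  have hface : ∀ j, k < j → j ≤ t → face (D.walk L j) ∉ D.dclu (B ∪ U) := by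
    intro j h1 h2 h3
    exact hnot j h1 h2 ⟨(walk_clu hD hLe (by omega)).1, h3⟩
  -- the configuration
  set G := (B ∪ U).filter (fun u => u ≠ e ∧
    ¬ (u ∈ U ∧ dsrc u ∉ D.dclu (B ∪ U) ∧ dtgt u ∉ D.dclu (B ∪ U))) with hG
  have hGH : G ⊆ B ∪ U := Finset.filter_subset _ _
  have hLG : L ⊆ G := by
    intro u hu
    obtain ⟨hu1, hu2⟩ := Finset.mem_sdiff.1 hu
    rw [hG, Finset.mem_filter]
    refine ⟨Finset.mem_union_left _ hu1, ?_, fun h => hu2 h.1⟩
    rintro rfl
    exact hu2 heU
  have hBG : Btw U B G := ⟨hLG, hGH⟩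
  have heG : e ∉ G := fun h => (Finset.mem_filter.1 h).2.1 rfl
  have hecG : e ∉ D.cfg G := fun h => h.elim (fun h' => heG h') hw
  have hGe : G ⊆ D.edges := hGH.trans (Finset.union_subset hB hU)
  -- the faces are in the dual cluster of `G`
  have hfG : ∀ j, k + 1 ≤ j → j ≤ t → face (D.walk L j) ∈ D.dclu G := by
    intro j hj
    induction j, hj using Nat.le_induction with
    | base =>
      intro _
      have h1 : face (D.walk L k) ∈ D.dclu G := dclu_mono hGH hk.2
      rw [H984N.walk_succ, nxt_closed (by rw [← he]; exact hec)]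
      exact dclu_step h1 (hU heU) hecG (p2_dends _)
    | succ j hj ih =>
      intro hjt
      have h1 := ih (by omega)
      by_cases hc : ae (D.walk L j) ∈ D.cfg L
      · rw [H984N.walk_succ, nxt_open hc, p2_face_mv]
        exact h1
      · have h2 := hface j (by omega) (by omega)
        have h3 := hface (j + 1) (by omega) hjt
        have hrt : D.walk L (j + 1) = rt (D.walk L j) := by
          rw [H984N.walk_succ, nxt_closed hc]
        rw [hrt] at h3 ⊢
        have h4 : ae (D.walk L j) ∈ D.edges := by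
          rcases walk_closed hD hLe (show j < D.len L by omega) hc with h | h
          · exact h
          · exact absurd (outer_dclu h) h2
        refine dclu_step h1 h4 ?_ (p2_dends _)
        rintro (h5 | h5)
        · have h6 := Finset.mem_filter.1 (show ae (D.walk L j) ∈ G from h5)
          have h7 : ae (D.walk L j) ∈ U := by
            by_contra hcon
            rcases Finset.mem_union.1 h6.1 with h8 | h8
            · exact hc (Or.inl (Finset.mem_coe.2 (Finset.mem_sdiff.2 ⟨h8, hcon⟩)))
            · exact hcon h8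
          apply h6.2.2
          refine ⟨h7, ?_, ?_⟩
          · rcases p2_dends (D.walk L j) with h8 | h8
            · rw [h8.1]; exact h2
            · rw [h8.1]; exact h3
          · rcases p2_dends (D.walk L j) with h8 | h8
            · rw [h8.2]; exact h3
            · rw [h8.2]; exact h2
        · exact hc (Or.inr h5)
  -- `G` visits the state
  obtain ⟨t', ht', htt⟩ := H443B.visited hD hGe (clu_mono hLG (walk_clu hD hLe htl).1)
    (hfG t (by omega) le_rfl)
  -- `flip e G` does not
  have hflip : flip e G = insert e G := by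
    unfold Pool.Agent.Zk36.TT.flip
    rw [if_neg heG]
  have hsub : D.dclu (flip e G) ⊆ D.dclu (B ∪ U) := by
    refine dclu_sub (fun f hf => outer_dclu hf) ?_
    intro a ha hc f g hf hor
    by_cases hc2 : a ∈ D.cfg (B ∪ U)
    · exfalso
      rcases hc2 with h1 | h1
      · have hane : a ≠ e := by
          rintro rfl
          exact hc (Or.inl (by rw [hflip]; exact Finset.mem_coe.2 (Finset.mem_insert_self _ _)))
        have haG : a ∉ G := fun h => hc (Or.inl (by
          rw [hflip]; exact Finset.mem_coe.2 (Finset.mem_insert_of_mem h)))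
        apply haG
        rw [hG, Finset.mem_filter]
        refine ⟨h1, hane, ?_⟩
        rintro ⟨_, h3, h4⟩
        rcases hor with h5 | h5
        · rw [h5.1] at h3; exact h3 hf
        · rw [h5.2] at h4; exact h4 hf
      · exact hc (Or.inr h1)
    · exact dclu_step hf ha hc2 hor
  have hnv : ¬ D.Vis (flip e G) (D.walk G t') := by
    rintro ⟨m, hm, hmt⟩
    have hfe : flip e G ⊆ D.edges := flip_sub (hU heU) hGe
    have h1 := (walk_clu hD hfe hm).2
    rw [hmt, htt] at h1
    exact hface t hkt le_rfl (hsub h1)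
  have := small_at hEXC hD hs hS hU hB hBG heU hw ht' hnv
  rw [htt] at this
  exact this

end Pool.Agent.Zk11.NS
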